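import Mathlib
import Pool.Agent.Helper970.V7.Defs

/-!
# The free resolution of an acyclic complex with a free cocompact action
-/

set_option autoImplicit false
set_option linter.unusedSectionVars false

open scoped Matrix

noncomputable section

namespace Run7.h709.GA

/-- the coefficient of the cell `y` in the boundary of the finite chain `c` -/
def bdAt {X : Type} (inc : X → X → ℤ) (c : X →₀ ℤ) (y : X) : ℤ := c.sum fun x m => m * inc x y

theorem bdAt_add {X : Type} (inc : X → X → ℤ) (c c' : X →₀ ℤ) (y : X) :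
    bdAt inc (c + c') y = bdAt inc c y + bdAt inc c' y := by
  unfold bdAt
  exact Finsupp.sum_add_index' (fun _ => zero_mul _) (fun _ _ _ => add_mul _ _ _)

theorem bdAt_zero {X : Type} (inc : X → X → ℤ) (y : X) : bdAt inc 0 y = 0 := Finsupp.sum_zero_index

theorem bdAt_sum {X ι : Type} (inc : X → X → ℤ) (s : Finset ι) (c : ι → X →₀ ℤ) (y : X) :
    bdAt inc (∑ i ∈ s, c i) y = ∑ i ∈ s, bdAt inc (c i) y := by
  classical
  induction s using Finset.induction_on with
  | empty => simp [bdAt_zero]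
  | insert a s ha ih => rw [Finset.sum_insert ha, Finset.sum_insert ha, bdAt_add, ih]

/-- a free action with finitely many orbits of cells in each degree, and representatives `s` of the orbits -/
structure Based (K X : Type) [Group K] [MulAction K X] where
  deg : X → ℕ
  inc : X → X → ℤ
  inc_smul : ∀ (g : K) (x y : X), inc (g • x) (g • y) = inc x y
  inc_deg : ∀ x y, inc x y ≠ 0 → deg x = deg y + 1
  fac : X → Finset X
  mem_fac : ∀ x y, y ∈ fac x ↔ inc x y ≠ 0
  inc_inc : ∀ x z, ∑ y ∈ fac x, inc x y * inc y z = 0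
  r : ℕ → ℕ
  s : ∀ n, Fin (r n) → X
  s_surj : ∀ n x, deg x = n ↔ ∃ (g : K) (j : Fin (r n)), x = g • s n j
  s_inj : ∀ n (g h : K) (i j : Fin (r n)), g • s n i = h • s n j → g = h ∧ i = j

/-- The augmented chain complex of the cells `X` with the degrees `deg`, the incidence numbers `inc` and the faces `fac` is
exact, so that the complex has the homology of a point: (`nonempty`) there is a vertex; (`aug`) the sum of the
coefficients of the boundary of an edge is zero; (`zero`) each finite `0`-chain with sum `0` is a boundary; (`succ`) each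
finite cycle of positive degree is a boundary. -/
structure AugExact {X : Type} (deg : X → ℕ) (inc : X → X → ℤ) (fac : X → Finset X) : Prop where
  nonempty : ∃ x, deg x = 0
  aug : ∀ x, deg x = 1 → ∑ y ∈ fac x, inc x y = 0
  zero : ∀ c : X →₀ ℤ, (∀ x, c x ≠ 0 → deg x = 0) → (c.sum fun _ m => m) = 0 →
    ∃ e : X →₀ ℤ, (∀ x, e x ≠ 0 → deg x = 1) ∧ ∀ y, bdAt inc e y = c y
  succ : ∀ (n : ℕ) (c : X →₀ ℤ), (∀ x, c x ≠ 0 → deg x = n + 1) → (∀ y, bdAt inc c y = 0) →
    ∃ e : X →₀ ℤ, (∀ x, e x ≠ 0 → deg x = n + 2) ∧ ∀ y, bdAt inc e y = c y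

namespace Based

variable {K X : Type} [Group K] [MulAction K X] (B : Based K X)

theorem inj_s (n : ℕ) (j : Fin (B.r n)) : Function.Injective fun g : K => g • B.s n j :=
  fun g h hgh => (B.s_inj n g h j j hgh).1

/-- the chain with the coordinates `v` -/
def vc (n : ℕ) (v : Fin (B.r n) → MonoidAlgebra ℤ K) : X →₀ ℤ :=
  ∑ j, Finsupp.mapDomain (fun g : K => g • B.s n j) (v j).coeff

theorem vc_apply (n : ℕ) (v : Fin (B.r n) → MonoidAlgebra ℤ K) (h : K) (i : Fin (B.r n)) :
    B.vc n v (h • B.s n i) = (v i).coeff h := by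
  classical
  unfold vc
  rw [Finsupp.finset_sum_apply, Finset.sum_eq_single i]
  · exact Finsupp.mapDomain_apply (B.inj_s n i) _ h
  · intro j _ hj
    refine Finsupp.mapDomain_notin_range _ _ ?_
    rintro ⟨g, hg⟩
    exact hj (B.s_inj n g h j i hg).2
  · intro h
    exact absurd (Finset.mem_univ _) h

theorem vc_deg (n : ℕ) (v : Fin (B.r n) → MonoidAlgebra ℤ K) (x : X) (h : B.vc n v x ≠ 0) : B.deg x = n := by
  classical
  by_contra hx
  apply h
  unfold vc
  rw [Finsupp.finset_sum_apply]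
  refine Finset.sum_eq_zero fun j _ => Finsupp.mapDomain_notin_range _ _ ?_
  rintro ⟨g, hg⟩
  exact hx ((B.s_surj n x).2 ⟨g, j, hg.symm⟩)

/-- the coordinates of a chain -/
def cv (n : ℕ) (c : X →₀ ℤ) (j : Fin (B.r n)) : MonoidAlgebra ℤ K :=
  .ofCoeff (c.comapDomain (fun g : K => g • B.s n j) ((B.inj_s n j).injOn))

theorem cv_apply (n : ℕ) (c : X →₀ ℤ) (j : Fin (B.r n)) (g : K) : (B.cv n c j).coeff g = c (g • B.s n j) := rfl

theorem vc_cv (n : ℕ) (c : X →₀ ℤ) (hc : ∀ x, c x ≠ 0 → B.deg x = n) : B.vc n (B.cv n c) = c := by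
  ext x
  by_cases hx : B.deg x = n
  · obtain ⟨g, j, rfl⟩ := (B.s_surj n x).1 hx
    rw [vc_apply, cv_apply]
  · have h1 : B.vc n (B.cv n c) x = 0 := by
      by_contra h
      exact hx (B.vc_deg n _ x h)
    have h2 : c x = 0 := by
      by_contra h
      exact hx (hc x h)
    rw [h1, h2]

theorem bdAt_vc (n : ℕ) (v : Fin (B.r n) → MonoidAlgebra ℤ K) (y : X) :
    bdAt B.inc (B.vc n v) y = ∑ j, (v j).coeff.sum fun g m => m * B.inc (g • B.s n j) y := by
  unfold vc
  rw [bdAt_sum]
  refine Finset.sum_congr rfl fun j _ => ?_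
  unfold bdAt
  exact Finsupp.sum_mapDomain_index (fun _ => zero_mul _) (fun _ _ _ => add_mul _ _ _)

theorem fin_row (n : ℕ) (x : X) (j : Fin (B.r n)) : (Function.support fun g : K => B.inc x (g • B.s n j)).Finite := by
  refine Set.Finite.of_finite_image (f := fun g : K => g • B.s n j)
    ((B.fac x).finite_toSet.subset ?_) ((B.inj_s n j).injOn)
  rintro _ ⟨g, hg, rfl⟩
  exact (B.mem_fac _ _).2 hg

/-- the matrices of the boundary operators -/
def d (n : ℕ) : Matrix (Fin (B.r (n + 1))) (Fin (B.r n)) (MonoidAlgebra ℤ K) :=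
  Matrix.of fun i j => .ofCoeff (Finsupp.ofSupportFinite _ (B.fin_row n (B.s (n + 1) i) j))

theorem d_coeff (n : ℕ) (i : Fin (B.r (n + 1))) (j : Fin (B.r n)) (g : K) :
    (B.d n i j).coeff g = B.inc (B.s (n + 1) i) (g • B.s n j) := rfl

theorem vecMul_coeff (n : ℕ) (v : Fin (B.r (n + 1)) → MonoidAlgebra ℤ K) (j : Fin (B.r n)) (h : K) :
    (Matrix.vecMul v (B.d n) j).coeff h = bdAt B.inc (B.vc (n + 1) v) (h • B.s n j) := by
  rw [bdAt_vc]
  have h1 : Matrix.vecMul v (B.d n) j = ∑ i, v i * B.d n i j := rfl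
  rw [h1, MonoidAlgebra.coeff_sum, Finsupp.finset_sum_apply]
  refine Finset.sum_congr rfl fun i _ => ?_
  rw [MonoidAlgebra.coeff_mul_apply_left]
  refine Finsupp.sum_congr fun g _ => ?_
  rw [d_coeff, ← B.inc_smul g, smul_smul, mul_inv_cancel_left]

/-- the boundary of a representative as a chain -/
theorem vc_row (n : ℕ) (i : Fin (B.r (n + 1))) (y : X) : B.vc n (B.d n i) y = B.inc (B.s (n + 1) i) y := by
  by_cases hy : B.deg y = n
  · obtain ⟨g, j, rfl⟩ := (B.s_surj n y).1 hy
    rw [vc_apply, d_coeff]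
  · have h1 : B.vc n (B.d n i) y = 0 := by
      by_contra h
      exact hy (B.vc_deg n _ y h)
    rw [h1]
    by_contra h
    have h2 := B.inc_deg _ _ (Ne.symm h)
    have h3 : B.deg (B.s (n + 1) i) = n + 1 := (B.s_surj (n + 1) _).2 ⟨1, i, (one_smul K _).symm⟩
    omega

theorem sum_row (n : ℕ) (i : Fin (B.r (n + 1))) (F : X → ℤ) :
    ((B.vc n (B.d n i)).sum fun y m => m * F y) = ∑ y ∈ B.fac (B.s (n + 1) i), B.inc (B.s (n + 1) i) y * F y := by
  classical
  have h1 : (B.vc n (B.d n i)).support = B.fac (B.s (n + 1) i) := by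
    ext y
    rw [Finsupp.mem_support_iff, vc_row, mem_fac]
  unfold Finsupp.sum
  rw [h1]
  exact Finset.sum_congr rfl fun y _ => by rw [vc_row]

theorem d_mul (n : ℕ) : B.d (n + 1) * B.d n = 0 := by
  ext i j h
  have h1 : (B.d (n + 1) * B.d n) i j = Matrix.vecMul (B.d (n + 1) i) (B.d n) j := rfl
  rw [h1, vecMul_coeff]
  show bdAt B.inc (B.vc (n + 1) (B.d (n + 1) i)) (h • B.s n j) = 0
  unfold bdAt
  rw [B.sum_row (n + 1) i fun y => B.inc y (h • B.s n j)]
  exact B.inc_inc _ _

theorem aug_eq (a : MonoidAlgebra ℤ K) : V7N.augG K a = a.coeff.sum fun _ m => m := by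
  unfold V7N.augG
  show MonoidAlgebra.lift ℤ ℤ K (1 : K →* ℤ) a = _
  rw [MonoidAlgebra.lift_apply]
  refine Finsupp.sum_congr fun g _ => ?_
  simp

theorem sum_vc (n : ℕ) (v : Fin (B.r n) → MonoidAlgebra ℤ K) :
    (B.vc n v).sum (fun _ m => m) = ∑ j, V7N.augG K (v j) := by
  have h1 := B.bdAt_vc
  have key : ∀ (s : Finset (Fin (B.r n))),
      (∑ j ∈ s, Finsupp.mapDomain (fun g : K => g • B.s n j) (v j).coeff).sum (fun (_ : X) (m : ℤ) => m) =
        ∑ j ∈ s, V7N.augG K (v j) := by
    classical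
    intro s
    induction s using Finset.induction_on with
    | empty => simp
    | insert a s ha ih =>
      rw [Finset.sum_insert ha, Finset.sum_insert ha,
        Finsupp.sum_add_index' (fun _ => rfl) (fun _ _ _ => rfl), ih, aug_eq,
        Finsupp.sum_mapDomain_index (fun _ => rfl) (fun _ _ _ => rfl)]
  exact key Finset.univ

/-- the resolution -/
def res (hE : AugExact B.deg B.inc B.fac) : V7N.FreeRes K where
  r := B.r
  d := B.d
  ε := { toFun := fun v => ∑ j, V7N.augG K (v j)
         map_zero' := by simp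
         map_add' := fun v w => by simp [Finset.sum_add_distrib] }
  ε_smul g v := by
    show ∑ j, V7N.augG K (MonoidAlgebra.single g (1 : ℤ) * v j) = ∑ j, V7N.augG K (v j)
    refine Finset.sum_congr rfl fun j _ => ?_
    rw [map_mul, aug_eq (MonoidAlgebra.single g (1 : ℤ)), MonoidAlgebra.coeff_single,
      Finsupp.sum_single_index rfl, one_mul]
  ε_surj := by
    classical
    intro m
    obtain ⟨x, hx⟩ := hE.nonempty
    obtain ⟨g, j, -⟩ := (B.s_surj 0 x).1 hx
    refine ⟨Pi.single j (MonoidAlgebra.single 1 m), ?_⟩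
    show ∑ i, V7N.augG K ((Pi.single j (MonoidAlgebra.single 1 m) : Fin (B.r 0) → MonoidAlgebra ℤ K) i) = m
    rw [Finset.sum_eq_single j]
    · rw [Pi.single_eq_same, aug_eq, MonoidAlgebra.coeff_single, Finsupp.sum_single_index rfl]
    · intro i _ hi
      rw [Pi.single_eq_of_ne hi, map_zero]
    · intro h
      exact absurd (Finset.mem_univ _) h
  exact_zero v := by
    show ∑ j, V7N.augG K (v j) = 0 ↔ _
    rw [← B.sum_vc 0 v]
    constructor
    · intro h
      obtain ⟨e, he1, he2⟩ := hE.zero (B.vc 0 v) (B.vc_deg 0 v) h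
      refine ⟨B.cv 1 e, ?_⟩
      funext j
      apply MonoidAlgebra.coeff_injective
      ext h
      have h1 := B.vecMul_coeff 0 (B.cv 1 e) j h
      have h2 : B.vc (0 + 1) (B.cv 1 e) = e := B.vc_cv 1 e he1
      rw [h2, he2, vc_apply] at h1
      exact h1.symm
    · rintro ⟨w, rfl⟩
      rw [B.sum_vc 0]
      have h1 : ∀ i, ∑ j, V7N.augG K (B.d 0 i j) = 0 := by
        intro i
        rw [← B.sum_vc 0 (B.d 0 i)]
        have h2 := B.sum_row 0 i fun _ => 1
        simp only [mul_one] at h2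
        rw [h2]
        exact hE.aug _ ((B.s_surj 1 _).2 ⟨1, i, (one_smul K _).symm⟩)
      have h2 : ∀ j, V7N.augG K (Matrix.vecMul w (B.d 0) j) = ∑ i, V7N.augG K (w i) * V7N.augG K (B.d 0 i j) := by
        intro j
        have h3 : Matrix.vecMul w (B.d 0) j = ∑ i, w i * B.d 0 i j := rfl
        rw [h3, map_sum]
        exact Finset.sum_congr rfl fun i _ => map_mul _ _ _
      simp only [h2]
      rw [Finset.sum_comm]
      refine Finset.sum_eq_zero fun i _ => ?_
      rw [← Finset.mul_sum, h1 i, mul_zero]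
  exact_succ n v := by
    constructor
    · intro h
      have h0 : ∀ y, bdAt B.inc (B.vc (n + 1) v) y = 0 := by
        intro y
        by_cases hy : B.deg y = n
        · obtain ⟨g, j, rfl⟩ := (B.s_surj n y).1 hy
          rw [← B.vecMul_coeff n v j g, h]
          rfl
        · unfold bdAt Finsupp.sum
          refine Finset.sum_eq_zero fun x hx => ?_
          have h1 := B.vc_deg (n + 1) v x (Finsupp.mem_support_iff.1 hx)
          have h2 : B.inc x y = 0 := by
            by_contra h3
            have := B.inc_deg x y h3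
            omega
          show B.vc (n + 1) v x * B.inc x y = 0
          rw [h2, mul_zero]
      obtain ⟨e, he1, he2⟩ := hE.succ n (B.vc (n + 1) v) (B.vc_deg (n + 1) v) h0
      refine ⟨B.cv (n + 2) e, ?_⟩
      funext j
      apply MonoidAlgebra.coeff_injective
      ext h
      have h1 := B.vecMul_coeff (n + 1) (B.cv (n + 2) e) j h
      have h2 : B.vc (n + 1 + 1) (B.cv (n + 2) e) = e := B.vc_cv (n + 2) e he1
      rw [h2, he2, vc_apply] at h1
      exact h1.symm
    · rintro ⟨w, rfl⟩
      rw [Matrix.vecMul_vecMul, B.d_mul n, Matrix.vecMul_zero]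

end Based

end Run7.h709.GA
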