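import Pool.Agent.Run7.h709.GA.Ell

/-!
# Groups with torsion acting on acyclic complexes
-/

set_option autoImplicit false
set_option linter.unusedSectionVars false

open scoped InnerProductSpace Matrix

noncomputable section

namespace Run7.h709.GA

open VN831 (l2Betti)
open Pool.Agent.Run7.h604.HK (L2 Cplx)

/-- the augmented chain complex is exact -/
def Acyclic (A : Cplx) : Prop := AugExact A.deg A.inc A.fac

section

variable (A : Cplx) {K : Type} [Group K] (φ : K →* A.G)

/-- the action of `K` -/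
@[instance_reducible] def actK : MulAction K A.X := MulAction.compHom A.X φ

theorem actK_smul (k : K) (x : A.X) : (letI := actK A φ; k • x) = φ k • x := rfl

variable (hφ : Function.Injective φ) (htf : ∀ (k : K) (n : ℕ), 0 < n → k ^ n = 1 → k = 1)

include hφ htf in
theorem free_act (k : K) (x : A.X) (h : φ k • x = x) : k = 1 := by
  haveI := A.stab x
  have h1 : IsOfFinOrder (⟨φ k, h⟩ : MulAction.stabilizer A.G x) := isOfFinOrder_of_finite _
  obtain ⟨n, hn, h2⟩ := isOfFinOrder_iff_pow_eq_one.1 h1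
  refine htf k n hn (hφ ?_)
  rw [map_pow, map_one]
  exact congrArg Subtype.val h2

theorem finite_orbits (hfi : φ.range.FiniteIndex) :
    Finite (Quotient (@MulAction.orbitRel K A.X _ (actK A φ))) := by
  letI := actK A φ
  haveI := hfi
  haveI : Finite (A.G ⧸ φ.range) := Subgroup.finite_quotient_of_finiteIndex
  let F : (A.G ⧸ φ.range) × A.cells → Quotient (MulAction.orbitRel K A.X) :=
    fun p => Quotient.mk (MulAction.orbitRel K A.X) (p.1.out⁻¹ • (p.2 : A.X))
  refine Finite.of_surjective F ?_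
  intro ω
  obtain ⟨x, rfl⟩ := Quotient.exists_rep ω
  obtain ⟨g, hg⟩ := A.cover x
  refine ⟨((g : A.G ⧸ φ.range), ⟨g • x, hg⟩), ?_⟩
  obtain ⟨h, hh⟩ := QuotientGroup.mk_out_eq_mul φ.range g
  obtain ⟨k, hk⟩ := h.2
  apply Quotient.sound
  refine ⟨k⁻¹, ?_⟩
  show φ k⁻¹ • x = (Quotient.out (g : A.G ⧸ φ.range))⁻¹ • g • x
  rw [hh, mul_inv_rev, smul_smul, mul_assoc, inv_mul_cancel, mul_one, map_inv, hk]

theorem exists_based (hφ : Function.Injective φ) (htf : ∀ (k : K) (n : ℕ), 0 < n → k ^ n = 1 → k = 1)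
    (hfi : φ.range.FiniteIndex) :
    letI := actK A φ
    ∃ B : Based K A.X, B.deg = A.deg ∧ B.inc = A.inc ∧ B.fac = A.fac := by
  classical
  letI := actK A φ
  let Ω := Quotient (MulAction.orbitRel K A.X)
  haveI : Finite Ω := finite_orbits A φ hfi
  let S : ℕ → Type := fun n => {ω : Ω // A.deg ω.out = n}
  haveI : ∀ n, Finite (S n) := fun n => Subtype.finite
  let e : ∀ n, S n ≃ Fin (Nat.card (S n)) := fun n => Finite.equivFin (S n)
  have hdeg : ∀ (k : K) (x : A.X), A.deg (k • x) = A.deg x := fun k x => A.deg_smul (φ k) x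
  refine ⟨{ deg := A.deg, inc := A.inc, inc_smul := fun k x y => A.inc_smul (φ k) x y, inc_deg := A.inc_deg,
            fac := A.fac, mem_fac := A.mem_fac, inc_inc := A.inc_inc,
            r := fun n => Nat.card (S n), s := fun n j => ((e n).symm j).1.out,
            s_surj := ?_, s_inj := ?_ }, rfl, rfl, rfl⟩
  · intro n x
    constructor
    · intro hx
      let ω : Ω := Quotient.mk _ x
      have h1 : (MulAction.orbitRel K A.X) ω.out x := Quotient.exact (Quotient.out_eq ω)
      obtain ⟨k, hk⟩ := h1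
      have hk' : k • x = ω.out := hk
      have h2 : A.deg ω.out = n := by rw [← hk', hdeg, hx]
      refine ⟨k⁻¹, e n ⟨ω, h2⟩, ?_⟩
      rw [Equiv.symm_apply_apply, ← hk', inv_smul_smul]
    · rintro ⟨k, j, rfl⟩
      rw [hdeg]
      exact ((e n).symm j).2
  · intro n g h i j hij
    have h1 : ((e n).symm i).1 = ((e n).symm j).1 := by
      rw [← Quotient.out_eq ((e n).symm i).1, ← Quotient.out_eq ((e n).symm j).1]
      apply Quotient.sound
      refine ⟨g⁻¹ * h, ?_⟩
      show (g⁻¹ * h) • ((e n).symm j).1.out = ((e n).symm i).1.out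
      rw [mul_smul, ← hij, inv_smul_smul]
    have h2 : i = j := (e n).symm.injective (Subtype.ext h1)
    subst h2
    refine ⟨?_, rfl⟩
    have h3 : φ (h⁻¹ * g) • ((e n).symm i).1.out = ((e n).symm i).1.out := by
      show (h⁻¹ * g) • ((e n).symm i).1.out = ((e n).symm i).1.out
      rw [mul_smul, hij, inv_smul_smul]
    have h4 := free_act A φ hφ htf _ _ h3
    exact (inv_mul_eq_one.1 h4).symm

/-- **Groups with torsion.** Let the group of the acyclic complex `A` contain a torsion free subgroup of finite index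
with vanishing `L²`-Betti number of degree `n + 1`. Then `A` has no square-summable harmonic chains of degree
`n + 1`. -/
theorem harm_vanish (hE : Acyclic A) (hφ : Function.Injective φ)
    (htf : ∀ (k : K) (n : ℕ), 0 < n → k ^ n = 1 → k = 1) (hfi : φ.range.FiniteIndex) (n : ℕ)
    (hn : l2Betti K (n + 1) = 0) (f : L2 A.X) (hf : f ∈ A.harm) (x : A.X) (hx : A.deg x = n + 1) : f x = 0 := by
  letI := actK A φ
  obtain ⟨B, h1, h2, h3⟩ := exists_based A φ hφ htf hfi
  refine B.harm_zero A.cof (fun x y => ?_) f (fun y => ?_) (fun x => ?_) ?_ n hn x ?_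
  · rw [h2]
    exact A.mem_cof x y
  · rw [h2]
    exact hf.1 y
  · rw [h2, h3]
    exact hf.2 x
  · rw [h1, h2, h3]
    exact hE
  · rw [h1]
    exact hx

theorem betti_vanish (hE : Acyclic A) (hφ : Function.Injective φ)
    (htf : ∀ (k : K) (n : ℕ), 0 < n → k ^ n = 1 → k = 1) (hfi : φ.range.FiniteIndex) (n : ℕ)
    (hn : l2Betti K (n + 1) = 0) : A.betti (n + 1) = 0 := by
  unfold Cplx.betti
  refine Finset.sum_eq_zero fun x hx => ?_
  have hxd : A.deg x = n + 1 := (Finset.mem_filter.1 hx).2
  have h0 : (0 : L2 A.X) ∈ A.harm := by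
    constructor
    · intro y
      refine Finset.sum_eq_zero fun x _ => ?_
      show _ * (0 : ℂ) = 0
      rw [mul_zero]
    · intro y
      refine Finset.sum_eq_zero fun x _ => ?_
      show _ * (0 : ℂ) = 0
      rw [mul_zero]
  have h1 : Metric.infDist (Pool.Agent.Run7.h604.HK.dl x) A.harm = 1 := by
    apply le_antisymm
    · have h2 := Metric.infDist_le_dist_of_mem (x := Pool.Agent.Run7.h604.HK.dl x) h0
      rwa [dist_zero_right, Pool.Agent.Run7.h604.HK.norm_dl] at h2
    · rw [Metric.le_infDist ⟨0, h0⟩]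
      intro f hf
      rw [dist_eq_norm]
      have h3 := lp.norm_apply_le_norm (p := 2) (by norm_num) (Pool.Agent.Run7.h604.HK.dl x - f) x
      have h4 : (Pool.Agent.Run7.h604.HK.dl x - f : L2 A.X) x = 1 := by
        rw [lp.coeFn_sub, Pi.sub_apply, Pool.Agent.Run7.h604.HK.dl_self, harm_vanish A φ hE hφ htf hfi n hn f hf x hxd,
          sub_zero]
      rw [h4, norm_one] at h3
      exact h3
  rw [h1]
  norm_num

end

end Run7.h709.GA
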