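import Pool.Agent.Run7.h709.GA.Harm
import Pool.Agent.Run7.h709.GA.Based
import Pool.Agent.Run7.h604.HK.Cplx

/-!
# Square-summable harmonic chains and the resolution
-/

set_option autoImplicit false
set_option linter.unusedSectionVars false

open scoped InnerProductSpace Matrix

noncomputable section

namespace Run7.h709.GA

open Pool.Agent.Helper655.VN Pool.Agent.RK Pool.Agent.N496.CV
open VN831 (l2Betti)
open Pool.Agent.Run7.h604.HK (L2 mem_two summable_sq)

variable {K : Type} [Group K]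

theorem coe_zsmul_NG (m : ℤ) (a : NG K) :
    ((m • a : NG K) : EllTwo K →L[ℂ] EllTwo K) = m • (a : EllTwo K →L[ℂ] EllTwo K) :=
  map_zsmul (NG K).subtype m a

theorem zsmul_apply (m : ℤ) (T : EllTwo K →L[ℂ] EllTwo K) (ξ : EllTwo K) (h : K) :
    ((m • T) ξ) h = (m : ℂ) * (T ξ) h := by
  have h1 : (m • T) ξ = (m : ℂ) • T ξ := by
    rw [← Int.cast_smul_eq_zsmul ℂ m T]
    rfl
  rw [h1]
  rfl

theorem ev_single (g : K) (m : ℤ) :
    V7N.evM (canL : K →* NG K) (MonoidAlgebra.single g m) = m • (canL g : NG K) := by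
  have h : V7N.evM (canL : K →* NG K) (MonoidAlgebra.single g m) =
      MonoidAlgebra.lift ℤ (NG K) K canL (MonoidAlgebra.single g m) := rfl
  rw [h, MonoidAlgebra.lift_single]

theorem ev_apply (a : MonoidAlgebra ℤ K) (ξ : EllTwo K) (h : K) :
    ((V7N.evM (canL : K →* NG K) a : NG K) : EllTwo K →L[ℂ] EllTwo K) ξ h =
      a.coeff.sum fun g m => (m : ℂ) * ξ (g⁻¹ * h) := by
  induction a using MonoidAlgebra.induction_linear with
  | zero => rw [map_zero]; rfl
  | add a b ha hb =>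
    rw [map_add, MonoidAlgebra.coeff_add, Finsupp.sum_add_index' (fun _ => by simp) (fun _ _ _ => by
      push_cast; ring), ← ha, ← hb]
    rfl
  | single g m =>
    rw [ev_single, coe_zsmul_NG, zsmul_apply, MonoidAlgebra.coeff_single, Finsupp.sum_single_index (by simp)]
    rfl

theorem star_ev_apply (a : MonoidAlgebra ℤ K) (ξ : EllTwo K) (h : K) :
    ((star (V7N.evM (canL : K →* NG K) a) : NG K) : EllTwo K →L[ℂ] EllTwo K) ξ h =
      a.coeff.sum fun g m => (m : ℂ) * ξ (g * h) := by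
  induction a using MonoidAlgebra.induction_linear with
  | zero => rw [map_zero, star_zero]; rfl
  | add a b ha hb =>
    rw [map_add, star_add, MonoidAlgebra.coeff_add, Finsupp.sum_add_index' (fun _ => by simp) (fun _ _ _ => by
      push_cast; ring), ← ha, ← hb]
    rfl
  | single g m =>
    have h1 : star (m • (canL g : NG K)) = m • (canL g⁻¹ : NG K) := by
      rw [star_zsmul]
      congr 1
      exact Subtype.ext (star_lam g)
    rw [ev_single, h1, coe_zsmul_NG, zsmul_apply, MonoidAlgebra.coeff_single, Finsupp.sum_single_index (by simp)]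
    show (m : ℂ) * ξ ((g⁻¹)⁻¹ * h) = _
    rw [inv_inv]

variable {X : Type} [MulAction K X] (B : Based K X)

theorem coe_sum {ι : Type} (s : Finset ι) (F : ι → EllTwo K) (h : K) : (∑ i ∈ s, F i) h = ∑ i ∈ s, F i h := by
  rw [lp.coeFn_sum, Finset.sum_apply]

namespace Based

theorem sum_vcC (n : ℕ) (v : Fin (B.r n) → MonoidAlgebra ℤ K) (F : X → ℂ) :
    (B.vc n v).sum (fun y m => (m : ℂ) * F y) = ∑ j, (v j).coeff.sum fun g m => (m : ℂ) * F (g • B.s n j) := by
  have key : ∀ (s : Finset (Fin (B.r n))),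
      (∑ j ∈ s, Finsupp.mapDomain (fun g : K => g • B.s n j) (v j).coeff).sum
        (fun (y : X) (m : ℤ) => (m : ℂ) * F y) =
        ∑ j ∈ s, (v j).coeff.sum fun g m => (m : ℂ) * F (g • B.s n j) := by
    classical
    intro s
    induction s using Finset.induction_on with
    | empty => simp
    | insert a s ha ih =>
      rw [Finset.sum_insert ha, Finset.sum_insert ha,
        Finsupp.sum_add_index' (fun _ => by simp) (fun _ _ _ => by push_cast; ring), ih,
        Finsupp.sum_mapDomain_index (fun _ => by simp) (fun _ _ _ => by push_cast; ring)]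
  exact key Finset.univ

theorem sum_rowC (n : ℕ) (i : Fin (B.r (n + 1))) (F : X → ℂ) :
    ∑ j, ((B.d n i j).coeff.sum fun g m => (m : ℂ) * F (g • B.s n j)) =
      ∑ y ∈ B.fac (B.s (n + 1) i), (B.inc (B.s (n + 1) i) y : ℂ) * F y := by
  classical
  rw [← B.sum_vcC n (B.d n i) F]
  have h1 : (B.vc n (B.d n i)).support = B.fac (B.s (n + 1) i) := by
    ext y
    rw [Finsupp.mem_support_iff, vc_row, mem_fac]
  unfold Finsupp.sum
  rw [h1]
  exact Finset.sum_congr rfl fun y _ => by rw [vc_row]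

theorem fac_smul_sum (h : K) (x : X) (F : X → ℂ) :
    ∑ y ∈ B.fac x, (B.inc x y : ℂ) * F (h • y) = ∑ y ∈ B.fac (h • x), (B.inc (h • x) y : ℂ) * F y := by
  refine Finset.sum_bij (fun y _ => h • y) ?_ ?_ ?_ ?_
  · intro y hy
    rw [B.mem_fac] at hy ⊢
    rwa [B.inc_smul]
  · intro y _ z _ hyz
    exact smul_left_cancel h hyz
  · intro z hz
    refine ⟨h⁻¹ • z, ?_, smul_inv_smul h z⟩
    rw [B.mem_fac] at hz ⊢
    rwa [← B.inc_smul h, smul_inv_smul]
  · intro y _
    rw [B.inc_smul]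

theorem mem_x (f : L2 X) (n : ℕ) (j : Fin (B.r n)) : Memℓp (fun h : K => f (h⁻¹ • B.s n j)) 2 := by
  rw [mem_two]
  exact (summable_sq f).comp_injective (i := fun h : K => h⁻¹ • B.s n j)
    fun g h hgh => inv_injective (B.inj_s n j hgh)

/-- the coordinates of a square-summable chain -/
def xv (f : L2 X) (n : ℕ) : EllN K (Fin (B.r n)) :=
  WithLp.toLp 2 fun j => ⟨fun h : K => f (h⁻¹ • B.s n j), B.mem_x f n j⟩

theorem xv_apply (f : L2 X) (n : ℕ) (j : Fin (B.r n)) (h : K) : (B.xv f n) j h = f (h⁻¹ • B.s n j) := rfl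

theorem co_zero (f : L2 X) (hc : ∀ x, ∑ y ∈ B.fac x, (B.inc x y : ℂ) * f y = 0)
    (hE : AugExact B.deg B.inc B.fac) (n : ℕ) :
    opM (nm (B.res hE) n) (B.xv f n) = 0 := by
  apply ext_N
  intro i
  rw [opM_apply]
  ext h
  rw [coe_sum]
  have h1 : ∀ j : Fin (B.r n), (((nm (B.res hE) n) i j : NG K) : EllTwo K →L[ℂ] EllTwo K) ((B.xv f n) j) h =
      (B.d n i j).coeff.sum fun g m => (m : ℂ) * f (h⁻¹ • (g • B.s n j)) := by
    intro j
    have h2 : (nm (B.res hE) n) i j = V7N.evM (canL : K →* NG K) (B.d n i j) := rfl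
    rw [h2, ev_apply]
    refine Finsupp.sum_congr fun g _ => ?_
    rw [xv_apply, mul_inv_rev, inv_inv, mul_smul]
  have h3 : ∑ j : Fin (B.r n), ((B.d n i j).coeff.sum fun g m => (m : ℂ) * f (h⁻¹ • (g • B.s n j))) = 0 := by
    rw [B.sum_rowC n i fun y => f (h⁻¹ • y), B.fac_smul_sum h⁻¹ _ f]
    exact hc _
  exact (Finset.sum_congr rfl fun j _ => h1 j).trans h3

theorem bd_zero (cof : X → Finset X) (hcof : ∀ x y, x ∈ cof y ↔ B.inc x y ≠ 0) (f : L2 X)
    (hb : ∀ y, ∑ x ∈ cof y, (B.inc x y : ℂ) * f x = 0) (hE : AugExact B.deg B.inc B.fac) (n : ℕ) :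
    opM (nm (B.res hE) n)ᴴ (B.xv f (n + 1)) = 0 := by
  classical
  apply ext_N
  intro j
  rw [opM_apply]
  ext h
  rw [coe_sum]
  have h1 : ∀ i : Fin (B.r (n + 1)),
      (((nm (B.res hE) n)ᴴ j i : NG K) : EllTwo K →L[ℂ] EllTwo K) ((B.xv f (n + 1)) i) h =
      (B.d n i j).coeff.sum fun g m => (m : ℂ) * f ((g * h)⁻¹ • B.s (n + 1) i) := by
    intro i
    have h2 : (nm (B.res hE) n)ᴴ j i = star (V7N.evM (canL : K →* NG K) (B.d n i j)) := rfl
    rw [h2, star_ev_apply]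
    rfl
  have h3 : ∑ i : Fin (B.r (n + 1)), ((B.d n i j).coeff.sum fun g m => (m : ℂ) * f ((g * h)⁻¹ • B.s (n + 1) i)) =
      ∑ x ∈ cof (h⁻¹ • B.s n j), (B.inc x (h⁻¹ • B.s n j) : ℂ) * f x := by
    unfold Finsupp.sum
    rw [Finset.sum_sigma']
    refine Finset.sum_bij (fun p _ => (p.2 * h)⁻¹ • B.s (n + 1) p.1) ?_ ?_ ?_ ?_
    · rintro ⟨i, g⟩ hp
      rw [Finset.mem_sigma] at hp
      have h4 : (B.d n i j).coeff g ≠ 0 := Finsupp.mem_support_iff.1 hp.2
      rw [d_coeff] at h4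
      rw [hcof, ← B.inc_smul (g * h)]
      show B.inc ((g * h) • (g * h)⁻¹ • B.s (n + 1) i) _ ≠ 0
      rwa [smul_inv_smul, smul_smul, mul_assoc, mul_inv_cancel, mul_one]
    · rintro ⟨i, g⟩ _ ⟨i', g'⟩ _ he
      obtain ⟨h5, h6⟩ := B.s_inj (n + 1) _ _ _ _ he
      have h7 : g = g' := mul_right_cancel (inv_injective h5)
      subst h6 h7
      rfl
    · intro x hx
      rw [hcof] at hx
      have h8 : B.deg (h⁻¹ • B.s n j) = n := (B.s_surj n _).2 ⟨h⁻¹, j, rfl⟩
      have h9 : B.deg x = n + 1 := by rw [B.inc_deg _ _ hx, h8]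
      obtain ⟨k, i, rfl⟩ := (B.s_surj (n + 1) x).1 h9
      refine ⟨⟨i, k⁻¹ * h⁻¹⟩, ?_, ?_⟩
      · rw [Finset.mem_sigma]
        refine ⟨Finset.mem_univ _, Finsupp.mem_support_iff.2 ?_⟩
        show (B.d n i j).coeff (k⁻¹ * h⁻¹) ≠ 0
        rw [d_coeff, ← B.inc_smul k, smul_smul, mul_inv_cancel_left]
        exact hx
      · show (k⁻¹ * h⁻¹ * h)⁻¹ • B.s (n + 1) i = _
        rw [inv_mul_cancel_right, inv_inv]
    · rintro ⟨i, g⟩ _
      show ((B.d n i j).coeff g : ℂ) * f ((g * h)⁻¹ • B.s (n + 1) i) =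
        (B.inc ((g * h)⁻¹ • B.s (n + 1) i) (h⁻¹ • B.s n j) : ℂ) * f ((g * h)⁻¹ • B.s (n + 1) i)
      rw [d_coeff, ← B.inc_smul (g * h) ((g * h)⁻¹ • B.s (n + 1) i), smul_inv_smul, smul_smul, mul_assoc,
        mul_inv_cancel, mul_one]
  rw [hb] at h3
  exact (Finset.sum_congr rfl fun i _ => h1 i).trans h3

/-- square-summable harmonic chains vanish if the `L²`-Betti number of the group does -/
theorem harm_zero (cof : X → Finset X) (hcof : ∀ x y, x ∈ cof y ↔ B.inc x y ≠ 0) (f : L2 X)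
    (hb : ∀ y, ∑ x ∈ cof y, (B.inc x y : ℂ) * f x = 0)
    (hc : ∀ x, ∑ y ∈ B.fac x, (B.inc x y : ℂ) * f y = 0)
    (hE : AugExact B.deg B.inc B.fac) (n : ℕ) (hn : l2Betti K (n + 1) = 0) (x : X) (hx : B.deg x = n + 1) :
    f x = 0 := by
  have h1 := no_harm_res (B.res hE) n hn (B.xv f (n + 1)) (B.co_zero f hc hE (n + 1))
    (B.bd_zero cof hcof f hb hE n)
  obtain ⟨g, j, rfl⟩ := (B.s_surj (n + 1) x).1 hx
  have h2 := B.xv_apply f (n + 1) j g⁻¹
  rw [inv_inv] at h2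
  rw [← h2, h1]
  rfl

end Based

end Run7.h709.GA
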