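import Pool.Agent.Run7.h709.AC.Chi

/-!
# Harmonic vectors of free resolutions
-/

set_option autoImplicit false
set_option linter.unusedSectionVars false

open scoped InnerProductSpace Matrix

noncomputable section

namespace Run7.h709.GA

open Pool.Agent.Helper655.VN Pool.Agent.RK Pool.Agent.N496.CV
open VN831 (l2Betti)

attribute [local instance] Pool.Agent.Helper655.VN.kerM_hop

variable {K : Type} [Group K]
variable {ι κ μ : Type} [Fintype ι] [Fintype κ] [Fintype μ] [DecidableEq ι] [DecidableEq κ] [DecidableEq μ]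

theorem proj_zero (p : Matrix ι ι (NG K)) (h1 : p * p = p) (h2 : pᴴ = p) (h3 : (mtr p).re = 0) : p = 0 := by
  rw [mtr_proj p h1 h2, Complex.ofReal_re] at h3
  ext1 k i
  apply ext_NG
  have h4 := (Finset.sum_eq_zero_iff_of_nonneg fun i _ => Finset.sum_nonneg fun k _ => sq_nonneg _).1 h3 i
    (Finset.mem_univ _)
  have h5 := (Finset.sum_eq_zero_iff_of_nonneg fun k _ => sq_nonneg _).1 h4 k (Finset.mem_univ _)
  have h6 : (p k i : EllTwo K →L[ℂ] EllTwo K) (dl 1) = 0 := norm_eq_zero.1 (pow_eq_zero_iff (two_ne_zero)|>.1 h5)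
  rw [h6]
  rfl

/-- no harmonic vectors if the ranks add up -/
theorem no_harm (M : Matrix μ κ (NG K)) (N : Matrix κ ι (NG K)) (h : M * N = 0)
    (hr : rk (tau K) M + rk (tau K) N = Fintype.card κ) (x : EllN K κ) (h1 : opM M x = 0) (h2 : opM Nᴴ x = 0) :
    x = 0 := by
  have e1 : rk (tau K) N = (Fintype.card κ : ℝ) - (mtr (kp Nᴴ)).re := by
    rw [Lp.rk_eq N _ (isLP_kp N), Tr_eq, mtr_sub, mtr_one, Complex.sub_re, Complex.natCast_re]
  have e2 : rk (tau K) M = (Fintype.card κ : ℝ) - (mtr (kp M)).re := by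
    rw [Lp.rk_eq M _ (isLP_kp M), Tr_eq, mtr_sub, mtr_one, ← mtr_kp, Complex.sub_re, Complex.natCast_re]
  have hQM : kp Nᴴ * Mᴴ = Mᴴ := by
    apply kp_mul
    rw [← Matrix.conjTranspose_mul, h, Matrix.conjTranspose_zero]
  have hMQ : M * kp Nᴴ = M := by
    have h3 := congrArg Matrix.conjTranspose hQM
    rwa [Matrix.conjTranspose_mul, Matrix.conjTranspose_conjTranspose, kp_star] at h3
  have hPQ : kp M * (1 - kp Nᴴ) = 1 - kp Nᴴ := by
    apply kp_mul
    rw [Matrix.mul_sub, Matrix.mul_one, hMQ, sub_self]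
  have hQP : (1 - kp Nᴴ) * kp M = 1 - kp Nᴴ := by
    have h3 := congrArg Matrix.conjTranspose hPQ
    rwa [Matrix.conjTranspose_mul, Matrix.conjTranspose_sub, Matrix.conjTranspose_one, kp_star, kp_star] at h3
  have hQQ : (1 - kp Nᴴ) * (1 - kp Nᴴ) = 1 - kp Nᴴ := (isLP_kp N).idem
  have hE : kp M - (1 - kp Nᴴ) = 0 := by
    apply proj_zero
    · have h3 : (kp M - (1 - kp Nᴴ)) * (kp M - (1 - kp Nᴴ)) =
          kp M * kp M - kp M * (1 - kp Nᴴ) - ((1 - kp Nᴴ) * kp M - (1 - kp Nᴴ) * (1 - kp Nᴴ)) := by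
        rw [Matrix.sub_mul, Matrix.mul_sub (kp M), Matrix.mul_sub (1 - kp Nᴴ)]
      rw [h3, kp_mul_self, hPQ, hQP, hQQ, sub_self, sub_zero]
    · rw [Matrix.conjTranspose_sub, Matrix.conjTranspose_sub, Matrix.conjTranspose_one, kp_star, kp_star]
    · rw [mtr_sub, mtr_sub, mtr_one, Complex.sub_re, Complex.sub_re, Complex.natCast_re]
      linarith
  have h3 : opM (kp M) x = x := by
    rw [opM_kp]
    exact (Submodule.starProjection_eq_self_iff).2 ((mem_kerM M x).2 h1)
  have h4 : opM (kp Nᴴ) x = x := by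
    rw [opM_kp]
    exact (Submodule.starProjection_eq_self_iff).2 ((mem_kerM Nᴴ x).2 h2)
  have h5 := congrArg (fun z : Matrix κ κ (NG K) => opM z x) hE
  have h6 : opM (kp M - (1 - kp Nᴴ)) x = opM (0 : Matrix κ κ (NG K)) x := h5
  rw [opM_sub, opM_sub, opM_one, opM_zero] at h6
  have h7 : opM (kp M) x - (x - opM (kp Nᴴ) x) = 0 := h6
  rwa [h3, h4, sub_self, sub_zero] at h7

/-- no harmonic vectors of a resolution in a positive degree in which the `L²`-Betti number vanishes -/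
theorem no_harm_res (C : V7N.FreeRes K) (n : ℕ) (h : l2Betti K (n + 1) = 0) (x : EllN K (Fin (C.r (n + 1))))
    (h1 : opM (nm C (n + 1)) x = 0) (h2 : opM (nm C n)ᴴ x = 0) : x = 0 := by
  refine no_harm (nm C (n + 1)) (nm C n) (nm_mul C n) ?_ x h1 h2
  rw [(succ_iff C n).1 h, Fintype.card_fin]

end Run7.h709.GA
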