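import Pool.Agent.Run7.h709.GA.Bridge
import Pool.Agent.Run7.h709.AC.Emb
import Pool.Agent.Run7.h709.AC.Cs

/-!
# Groups which are virtually subgroups of `W`, up to finite kernels
-/

set_option autoImplicit false
set_option linter.unusedSectionVars false

open scoped InnerProductSpace Matrix

noncomputable section

namespace Run7.h709.GA

open VN831 (l2Betti)
open Pool.Agent.Run7.h604.HK (L2 Cplx)
open Pool.Agent.W907.SG Pool.Agent.W461.SGN Pool.Agent.N496.CV Run7.h709.AC

variable {V : Type} [Fintype V] [LinearOrder V]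

/-- The group which acts on `A` is, up to finite kernels and subgroups of finite index, a subgroup of the right-angled
Coxeter group `W G`: there is a homomorphism with finite kernel from a subgroup `K` of `W G`, of finite or infinite
index, onto a subgroup of finite index. -/
def VirtSub (A : Cplx) (G : SimpleGraph V) : Prop :=
  ∃ (K : Subgroup (W G)) (φ : K →* A.G), Finite φ.ker ∧ φ.range.FiniteIndex

theorem torsion_free (G : SimpleGraph V) (K : Subgroup (W G)) (hK : K ≤ (th G).ker) (k : K) (n : ℕ) (hn : 0 < n)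
    (h : k ^ n = 1) : k = 1 := by
  apply Subtype.ext
  exact Pool.Agent.N496.CV.tf' V G k.1 (hK k.2) n hn (by
    have := congrArg Subtype.val h
    simpa using this)

/-- a torsion free subgroup in `ker th` suffices -/
theorem VirtSub.tf {A : Cplx} {G : SimpleGraph V} (h : VirtSub A G) :
    ∃ (K : Subgroup (W G)) (φ : K →* A.G), K ≤ (th G).ker ∧ Function.Injective φ ∧ φ.range.FiniteIndex := by
  obtain ⟨K, φ, hk, hr⟩ := h
  let K' : Subgroup (W G) := K ⊓ (th G).ker
  have hle : K' ≤ K := inf_le_left
  let ψ : K' →* A.G := φ.comp (Subgroup.inclusion hle)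
  refine ⟨K', ψ, inf_le_right, ?_, ?_⟩
  · rw [injective_iff_map_eq_one]
    intro k hk1
    haveI := hk
    have h1 : IsOfFinOrder (⟨Subgroup.inclusion hle k, hk1⟩ : φ.ker) := isOfFinOrder_of_finite _
    obtain ⟨n, hn, h2⟩ := isOfFinOrder_iff_pow_eq_one.1 h1
    refine torsion_free G K' inf_le_right k n hn ?_
    apply Subgroup.inclusion_injective hle
    rw [map_pow, map_one]
    exact congrArg Subtype.val h2
  · haveI := hr
    have h1 : ψ.range = (K'.subgroupOf K).map φ := by
      ext x
      constructor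
      · rintro ⟨k, rfl⟩
        exact ⟨Subgroup.inclusion hle k, k.2, rfl⟩
      · rintro ⟨k, hk', rfl⟩
        exact ⟨⟨k.1, hk'⟩, rfl⟩
    rw [h1]
    haveI h2 : (K'.subgroupOf K).FiniteIndex := by
      have h3 : K'.subgroupOf K = (th G).ker.subgroupOf K := by
        ext x
        exact ⟨fun hx => hx.2, fun hx => ⟨x.2, hx⟩⟩
      rw [h3]
      infer_instance
    constructor
    rw [Subgroup.index_map]
    refine mul_ne_zero ?_ hr.index_ne_zero
    exact (Subgroup.finiteIndex_of_le (H := K'.subgroupOf K) le_sup_left).index_ne_zero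

/-- the vanishing for all groups which are virtually subgroups of `W G` and all complexes -/
theorem virt_harm {G : SimpleGraph V} {b : ℕ} (hAC : AC G b Set.univ) {A : Cplx} (hE : Acyclic A)
    (h : VirtSub A G) (f : L2 A.X) (hf : f ∈ A.harm) (x : A.X) (hx : b ≤ A.deg x) : f x = 0 := by
  obtain ⟨K, φ, h1, h2, h3⟩ := h.tf
  have hb := hAC.pos
  obtain ⟨n, hn⟩ : ∃ n, A.deg x = n + 1 := ⟨A.deg x - 1, by omega⟩
  exact harm_vanish A φ hE h2 (torsion_free G K h1) h3 n (main G hAC K h1 (n + 1) (by omega) (by omega)) f hf x hn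

theorem virt_betti {G : SimpleGraph V} {b : ℕ} (hAC : AC G b Set.univ) {A : Cplx} (hE : Acyclic A)
    (h : VirtSub A G) (i : ℕ) (hi : b ≤ i) : A.betti i = 0 := by
  obtain ⟨K, φ, h1, h2, h3⟩ := h.tf
  have hb := hAC.pos
  obtain ⟨n, rfl⟩ : ∃ n, i = n + 1 := ⟨i - 1, by omega⟩
  exact betti_vanish A φ hE h2 (torsion_free G K h1) h3 n (main G hAC K h1 (n + 1) hi (by omega))

end Run7.h709.GA
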